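import Pool.Agent.MP_e52733_co.Quant

set_option autoImplicit false
open Filter Topology

namespace Pool.Agent.MP_e52733_co

theorem tendsto_log_div : Tendsto (fun n : ℕ => Real.log n / n) atTop (𝓝 0) :=
  (Real.isLittleO_log_id_atTop.tendsto_div_nhds_zero).comp tendsto_natCast_atTop_atTop

theorem tendsto_logsq_div : Tendsto (fun n : ℕ => Real.log n ^ 2 / n) atTop (𝓝 0) :=
  ((Real.isLittleO_pow_log_id_atTop (n := 2)).tendsto_div_nhds_zero).comp tendsto_natCast_atTop_atTop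

theorem tendsto_log_nat : Tendsto (fun n : ℕ => Real.log n) atTop atTop :=
  Real.tendsto_log_atTop.comp tendsto_natCast_atTop_atTop

theorem tendsto_loglog_div : Tendsto (fun n : ℕ => Real.log (Real.log n) / Real.log n) atTop (𝓝 0) :=
  (Real.isLittleO_log_id_atTop.tendsto_div_nhds_zero).comp tendsto_log_nat

theorem tendsto_inv_log : Tendsto (fun n : ℕ => 1 / Real.log n) atTop (𝓝 0) := by
  have h := tendsto_log_nat.inv_tendsto_atTop
  refine h.congr (fun n => ?_)
  simp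

theorem log9_lt : Real.log 9 < 3 := by
  have h1 : Real.log 9 = 2 * Real.log 3 := by
    rw [show (9 : ℝ) = 3 ^ 2 by norm_num, Real.log_pow]; norm_num
  have h2 : Real.log 3 < 1.5 := by
    rw [Real.log_lt_iff_lt_exp (by norm_num)]
    have h3 : (2.7182818283 : ℝ) < Real.exp 1 := Real.exp_one_gt_d9
    have h4 : Real.exp 1.5 = Real.exp 1 * Real.exp 0.5 := by
      rw [← Real.exp_add]; norm_num
    have h5 : (1.5 : ℝ) ≤ Real.exp 0.5 := by
      have := Real.add_one_le_exp (0.5 : ℝ)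
      linarith
    rw [h4]
    nlinarith
  rw [h1]
  linarith

theorem cond_one (n d w0 : ℕ) (ln : ℝ) (hln : ln = Real.log n) (hnpos : (0 : ℝ) < n)
    (hlnpos : 0 < ln) (he1 : 100 * ln ^ 2 < n) (hw1 : (w0 : ℝ) ≤ (n : ℝ) / (16 * ln ^ 2))
    (hd3 : (n : ℝ) * Real.log 2 / ln ≤ d) : (n : ℝ) ^ (w0 + 1) * (3 / 4) ^ d ≤ 1 := by
  have hlog2 : (0 : ℝ) < Real.log 2 := Real.log_pos (by norm_num)
  have hlog2' := Real.log_two_gt_d9
  rw [← Real.log_nonpos_iff (by positivity), Real.log_mul (by positivity) (by positivity),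
    Real.log_pow, Real.log_pow, ← hln]
  push_cast
  have b1 : Real.log (3 / 4) ≤ -(1 / 4) := by
    have := Real.log_le_sub_one_of_pos (show (0 : ℝ) < 3 / 4 by norm_num)
    linarith
  have b2 : ((w0 : ℝ) + 1) ≤ n / (8 * ln ^ 2) := by
    have b3 : (1 : ℝ) ≤ n / (16 * ln ^ 2) := by
      rw [le_div_iff₀ (by positivity)]
      linarith [sq_nonneg ln]
    have b4 : (n : ℝ) / (8 * ln ^ 2) = n / (16 * ln ^ 2) + n / (16 * ln ^ 2) := by
      field_simp
      norm_num
    linarith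
  have b5 : ((w0 : ℝ) + 1) * ln ≤ n / (8 * ln) := by
    calc ((w0 : ℝ) + 1) * ln ≤ n / (8 * ln ^ 2) * ln := mul_le_mul_of_nonneg_right b2 hlnpos.le
      _ = n / (8 * ln) := by field_simp
  have b0 : (0 : ℝ) ≤ n * Real.log 2 / ln := by positivity
  have b6 : (d : ℝ) * Real.log (3 / 4) ≤ (n * Real.log 2 / ln) * (-(1 / 4)) := by
    calc (d : ℝ) * Real.log (3 / 4) ≤ d * (-(1 / 4)) :=
          mul_le_mul_of_nonneg_left b1 (by positivity)
      _ ≤ _ := mul_le_mul_of_nonpos_right hd3 (by norm_num)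
  have b7 : (n * Real.log 2 / ln) * (-(1 / 4)) ≤ - (n / (8 * ln)) := by
    have e : (n * Real.log 2 / ln) * (-(1 / 4)) + n / (8 * ln) = - ((n / (8 * ln)) * (2 * Real.log 2 - 1)) := by
      field_simp
      ring
    have h0 : 0 ≤ n / (8 * ln) * (2 * Real.log 2 - 1) := by
      apply mul_nonneg (by positivity)
      linarith
    linarith
  linarith

theorem cond_two (n d w0 : ℕ) (ln : ℝ) (hln : ln = Real.log n) (hnpos : (0 : ℝ) < n)
    (hln10 : 10 ≤ ln) (he1 : 100 * ln ^ 2 < n) (hw2 : (n : ℝ) / (16 * ln ^ 2) < w0 + 1)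
    (hd3 : (n : ℝ) * Real.log 2 / ln ≤ d)
    (e2 : ln / n + Real.log 2 * (Real.log 33 * (1 / ln) + 2 * (Real.log ln / ln)) <
        Real.log 2 - Real.log (9 / 5)) :
    (n : ℝ) * ((9 / 5) ^ n * (1 / n + 2 / (w0 + 3)) ^ d) ≤ 1 := by
  have hlnpos : 0 < ln := by linarith
  have hn0 : (n : ℝ) ≠ 0 := hnpos.ne'
  have y1 : (1 : ℝ) / n + 2 / (w0 + 3) ≤ 33 * ln ^ 2 / n := by
    have b1 : (2 : ℝ) / (w0 + 3) ≤ 32 * ln ^ 2 / n := by
      rw [div_le_div_iff₀ (by positivity) hnpos]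
      have h1 : (n : ℝ) / (16 * ln ^ 2) * (16 * ln ^ 2) < (w0 + 1) * (16 * ln ^ 2) :=
        mul_lt_mul_of_pos_right hw2 (by positivity)
      rw [div_mul_cancel₀ _ (by positivity)] at h1
      have h2 := sq_nonneg ln
      linarith
    have b2 : (1 : ℝ) / n ≤ ln ^ 2 / n := by
      apply div_le_div_of_nonneg_right _ hnpos.le
      nlinarith
    have b3 : 33 * ln ^ 2 / (n : ℝ) = ln ^ 2 / n + 32 * ln ^ 2 / n := by ring
    linarith
  have y2 : (1 / (n : ℝ) + 2 / (w0 + 3)) ^ d ≤ (33 * ln ^ 2 / n) ^ d :=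
    pow_le_pow_left₀ (by positivity) y1 d
  have y3 : (n : ℝ) * ((9 / 5) ^ n * (1 / n + 2 / (w0 + 3)) ^ d) ≤
      n * ((9 / 5) ^ n * (33 * ln ^ 2 / n) ^ d) := by
    apply mul_le_mul_of_nonneg_left _ hnpos.le
    exact mul_le_mul_of_nonneg_left y2 (by positivity)
  refine y3.trans ?_
  rw [← Real.log_nonpos_iff (by positivity), Real.log_mul (by positivity) (by positivity),
    Real.log_mul (by positivity) (by positivity), Real.log_pow, Real.log_pow]
  have b1 : Real.log (33 * ln ^ 2 / n) = Real.log 33 + 2 * Real.log ln - ln := by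
    rw [Real.log_div (by positivity) hn0, Real.log_mul (by norm_num) (by positivity), Real.log_pow,
      ← hln]
    push_cast
    ring
  have b2 : Real.log (33 * ln ^ 2 / n) ≤ 0 := by
    rw [Real.log_nonpos_iff (by positivity), div_le_one hnpos]
    linarith [sq_nonneg ln]
  have b3 : (d : ℝ) * Real.log (33 * ln ^ 2 / n) ≤
      (n * Real.log 2 / ln) * Real.log (33 * ln ^ 2 / n) :=
    mul_le_mul_of_nonpos_right hd3 b2
  rw [b1] at b3
  rw [b1, ← hln]
  have b4 : (n * Real.log 2 / ln) * (Real.log 33 + 2 * Real.log ln - ln) =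
      n * (Real.log 2 * (Real.log 33 * (1 / ln) + 2 * (Real.log ln / ln))) - n * Real.log 2 := by
    field_simp
  have b5 : ln = n * (ln / n) := by
    field_simp
  have b6 : (n : ℝ) * (ln / n + Real.log 2 * (Real.log 33 * (1 / ln) + 2 * (Real.log ln / ln))) ≤
      n * (Real.log 2 - Real.log (9 / 5)) := mul_le_mul_of_nonneg_left e2.le hnpos.le
  rw [mul_add, ← b5] at b6
  rw [b4] at b3
  linarith

theorem f_upper_eventually : ∀ᶠ n : ℕ in atTop,
    (f n : ℝ) ≤ n * Real.log 2 / (Real.log n - Real.log 9) + 4 * (Real.log n / Real.log 2) + 11 := by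
  have hlog2 : (0 : ℝ) < Real.log 2 := Real.log_pos (by norm_num)
  have hlog2' := Real.log_two_gt_d9
  have hlog2'' := Real.log_two_lt_d9
  have hgap : 0 < Real.log 2 - Real.log (9 / 5) := by
    have : Real.log (9 / 5) < Real.log 2 := Real.log_lt_log (by norm_num) (by norm_num)
    linarith
  -- the eventual conditions
  have E1 : ∀ᶠ n : ℕ in atTop, Real.log n ^ 2 / n < 1 / 100 :=
    tendsto_logsq_div.eventually (gt_mem_nhds (by norm_num))
  have hlim : Tendsto (fun n : ℕ => Real.log n / n +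
      Real.log 2 * (Real.log 33 * (1 / Real.log n) + 2 * (Real.log (Real.log n) / Real.log n)))
      atTop (𝓝 (0 + Real.log 2 * (Real.log 33 * 0 + 2 * 0))) :=
    tendsto_log_div.add ((((tendsto_inv_log.const_mul _).add
      (tendsto_loglog_div.const_mul _))).const_mul _)
  have E2 : ∀ᶠ n : ℕ in atTop, Real.log n / n +
      Real.log 2 * (Real.log 33 * (1 / Real.log n) + 2 * (Real.log (Real.log n) / Real.log n)) <
        Real.log 2 - Real.log (9 / 5) := by
    apply hlim.eventually (gt_mem_nhds _)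
    simpa using hgap
  have E3 : ∀ᶠ n : ℕ in atTop, 10 ≤ Real.log n := tendsto_log_nat.eventually (eventually_ge_atTop 10)
  filter_upwards [E1, E2, E3, eventually_ge_atTop 100] with n e1 e2 e3 e4
  have hn : (100 : ℝ) ≤ n := by exact_mod_cast e4
  have hnpos : (0 : ℝ) < n := by linarith
  set ln := Real.log n with hln
  have hlnpos : 0 < ln := by linarith
  have hlog9 := log9_lt
  have hlog9pos : 0 < Real.log 9 := Real.log_pos (by norm_num)
  have hden : 0 < ln - Real.log 9 := by linarith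
  set d := ⌈(n : ℝ) * Real.log 2 / (ln - Real.log 9)⌉₊ with hd
  have hd1 : (n : ℝ) * Real.log 2 / (ln - Real.log 9) ≤ d := Nat.le_ceil _
  have hd2 : (d : ℝ) < (n : ℝ) * Real.log 2 / (ln - Real.log 9) + 1 := Nat.ceil_lt_add_one (by positivity)
  have hd3 : (n : ℝ) * Real.log 2 / ln ≤ d := by
    refine le_trans ?_ hd1
    apply div_le_div_of_nonneg_left (by positivity) hden
    linarith
  have hdn : d ≤ n := by
    have h1 : (n : ℝ) * Real.log 2 / (ln - Real.log 9) ≤ (n : ℝ) / 2 := by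
      rw [div_le_div_iff₀ hden (by norm_num)]
      nlinarith
    have h2 : (d : ℝ) < n := by linarith
    exact_mod_cast h2.le
  set w0 := ⌊(n : ℝ) / (16 * ln ^ 2)⌋₊ with hw0
  have hw1 : (w0 : ℝ) ≤ (n : ℝ) / (16 * ln ^ 2) := Nat.floor_le (by positivity)
  have hw2 : (n : ℝ) / (16 * ln ^ 2) < w0 + 1 := Nat.lt_floor_add_one _
  have he1 : 100 * ln ^ 2 < n := by
    rw [div_lt_iff₀ hnpos] at e1
    linarith
  have hn0 : (n : ℝ) ≠ 0 := hnpos.ne'
  have c1 := cond_one n d w0 ln hln hnpos hlnpos he1 hw1 hd3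
  have c2 := cond_two n d w0 ln hln hnpos e3 he1 hw2 hd3 e2
  -- condition 3
  have c3 : (2 : ℝ) ^ n * (9 / n) ^ d ≤ 1 := by
    rw [← Real.log_nonpos_iff (by positivity), Real.log_mul (by positivity) (by positivity),
      Real.log_pow, Real.log_pow, Real.log_div (by norm_num) hn0, ← hln]
    have : (n : ℝ) * Real.log 2 / (ln - Real.log 9) * (ln - Real.log 9) ≤ d * (ln - Real.log 9) :=
      mul_le_mul_of_nonneg_right hd1 hden.le
    rw [div_mul_cancel₀ _ hden.ne'] at this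
    have e : (d : ℝ) * (Real.log 9 - ln) = -(d * (ln - Real.log 9)) := by ring
    rw [e]
    linarith
  have hl := Nat.le_pow_clog (by norm_num : 1 < 2) n
  have hfin := f_upper_of n d w0 (Nat.clog 2 n) (by omega) hdn hl c1 c2 c3
  have hfin' : (f n : ℝ) ≤ d + 4 * (Nat.clog 2 n : ℕ) + 6 := by exact_mod_cast hfin
  have hclog : ((Nat.clog 2 n : ℕ) : ℝ) ≤ ln / Real.log 2 + 1 := by
    have h1 : 2 ^ (Nat.clog 2 n - 1) < n := Nat.pow_pred_clog_lt_self (by norm_num) (by omega)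
    have h2 : (2 : ℝ) ^ (Nat.clog 2 n - 1) ≤ n := by exact_mod_cast h1.le
    have h3 := Real.log_le_log (by positivity) h2
    rw [Real.log_pow, ← hln] at h3
    have h4 : ((Nat.clog 2 n - 1 : ℕ) : ℝ) ≤ ln / Real.log 2 := by
      rw [le_div_iff₀ hlog2]; exact h3
    have h5 : ((Nat.clog 2 n : ℕ) : ℝ) ≤ ((Nat.clog 2 n - 1 : ℕ) : ℝ) + 1 := by
      exact_mod_cast (by omega : Nat.clog 2 n ≤ Nat.clog 2 n - 1 + 1)
    linarith
  linarith

end Pool.Agent.MP_e52733_co
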