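import Mathlib

set_option autoImplicit false

namespace Pool.Agent.MP_e52733_co

/-- the sign character of `ZMod 2` -/
noncomputable def chi (a : ZMod 2) : ℝ := if a = 0 then 1 else -1

theorem chi_zero : chi 0 = 1 := by simp [chi]

theorem chi_one : chi 1 = -1 := by simp [chi]

theorem zmod2_cases (a : ZMod 2) : a = 0 ∨ a = 1 := by
  revert a; decide

theorem chi_add (a b : ZMod 2) : chi (a + b) = chi a * chi b := by
  have h11 : (1 : ZMod 2) + 1 = 0 := by decide
  rcases zmod2_cases a with rfl | rfl <;> rcases zmod2_cases b with rfl | rfl <;>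
    simp [chi_zero, chi_one, h11]

theorem chi_sum {ι : Type*} (s : Finset ι) (f : ι → ZMod 2) :
    chi (∑ i ∈ s, f i) = ∏ i ∈ s, chi (f i) := by
  classical
  induction s using Finset.induction_on with
  | empty => simp [chi_zero]
  | insert a s ha ih => rw [Finset.sum_insert ha, Finset.prod_insert ha, chi_add, ih]

theorem ind_eq (a b : ZMod 2) : (if a = b then (1 : ℝ) else 0) = (1 + chi a * chi b) / 2 := by
  have h01 : (0 : ZMod 2) ≠ 1 := by decide
  rcases zmod2_cases a with rfl | rfl <;> rcases zmod2_cases b with rfl | rfl <;>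
    simp [chi_zero, chi_one, h01, h01.symm]

/-- threshold bit -/
def bit (t p : ℕ) : ZMod 2 := if t ≤ p then 1 else 0

theorem sum_chi (M p p' : ℕ) (hp : p < M) (hp' : p' < M) :
    ∑ t : Fin (2 * M), chi (bit t p) * chi (bit t p') = 2 * ((M : ℝ) - |(p : ℝ) - p'|) := by
  wlog h : p ≤ p' with H
  · rw [abs_sub_comm, ← H M p' p hp' hp (by omega)]
    apply Finset.sum_congr rfl
    intro t _
    ring
  have h1 : ∀ t : Fin (2 * M), chi (bit t p) * chi (bit t p') =
      1 - 2 * (if (t : ℕ) ∈ Finset.Ioc p p' then (1 : ℝ) else 0) := by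
    intro t
    unfold bit
    simp only [Finset.mem_Ioc]
    by_cases h2 : (t : ℕ) ≤ p
    · have h3 : (t : ℕ) ≤ p' := by omega
      have h4 : ¬ (p < (t : ℕ) ∧ (t : ℕ) ≤ p') := by omega
      rw [if_pos h2, if_pos h3, if_neg h4, chi_one]; norm_num
    · by_cases h3 : (t : ℕ) ≤ p'
      · have h4 : (p < (t : ℕ) ∧ (t : ℕ) ≤ p') := by omega
        rw [if_neg h2, if_pos h3, if_pos h4, chi_one, chi_zero]; norm_num
      · have h4 : ¬ (p < (t : ℕ) ∧ (t : ℕ) ≤ p') := by omega
        rw [if_neg h2, if_neg h3, if_neg h4, chi_zero]; norm_num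
  rw [Finset.sum_congr rfl (fun t _ => h1 t), Finset.sum_sub_distrib, ← Finset.mul_sum]
  rw [Fin.sum_univ_eq_sum_range (fun t => if t ∈ Finset.Ioc p p' then (1 : ℝ) else 0) (2 * M)]
  rw [← Finset.sum_filter, Finset.sum_const, Finset.sum_const, Finset.card_univ, Fintype.card_fin]
  have h5 : (Finset.range (2 * M)).filter (fun t => t ∈ Finset.Ioc p p') = Finset.Ioc p p' := by
    ext t
    rw [Finset.mem_filter, Finset.mem_range, Finset.mem_Ioc]
    omega
  rw [h5, Nat.card_Ioc]
  have h6 : |(p : ℝ) - p'| = (p' : ℝ) - p := by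
    rw [abs_sub_comm, abs_of_nonneg]
    have : (p : ℝ) ≤ p' := by exact_mod_cast h
    linarith
  rw [h6]
  simp only [nsmul_eq_mul, mul_one]
  rw [Nat.cast_sub h]
  push_cast
  ring

section
variable {n d M : ℕ}

/-- the vector coded by the positions `p` under thresholds `t` -/
def Phi (t : Fin n → Fin d → Fin (2 * M)) (p : Fin d → Fin M) : Fin n → ZMod 2 :=
  fun b => ∑ i, bit (t b i) (p i)

/-- number of colliding pairs -/
noncomputable def coll (t : Fin n → Fin d → Fin (2 * M)) : ℝ :=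
  ∑ p : Fin d → Fin M, ∑ p' : Fin d → Fin M, if Phi t p = Phi t p' then (1 : ℝ) else 0

noncomputable def rho (M : ℕ) (p p' : Fin M) : ℝ := ((M : ℝ) - |((p : ℕ) : ℝ) - ((p' : ℕ) : ℝ)|) / M

theorem sum_ind (p p' : Fin d → Fin M) (hM : 0 < M) :
    ∑ t : Fin n → Fin d → Fin (2 * M), (if Phi t p = Phi t p' then (1 : ℝ) else 0) =
      ((2 * (M : ℝ)) ^ d) ^ n * ((1 + ∏ i, rho M (p i) (p' i)) / 2) ^ n := by
  have hM' : (M : ℝ) ≠ 0 := by positivity
  have h1 : ∀ t : Fin n → Fin d → Fin (2 * M), (if Phi t p = Phi t p' then (1 : ℝ) else 0) =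
      ∏ b, (if (∑ i, bit (t b i) (p i)) = (∑ i, bit (t b i) (p' i)) then (1 : ℝ) else 0) := by
    intro t
    rw [Finset.prod_ite_zero]
    simp only [Finset.prod_const_one, Finset.mem_univ, forall_true_left]
    congr 1
    rw [eq_iff_iff]
    exact funext_iff
  have h2 : ∀ t : Fin n → Fin d → Fin (2 * M), (if Phi t p = Phi t p' then (1 : ℝ) else 0) =
      ∏ b, ((1 + ∏ i, (chi (bit (t b i) (p i)) * chi (bit (t b i) (p' i)))) / 2) := by
    intro t
    rw [h1 t]
    apply Finset.prod_congr rfl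
    intro b _
    rw [ind_eq, chi_sum, chi_sum, Finset.prod_mul_distrib]
  rw [Finset.sum_congr rfl (fun t _ => h2 t)]
  have h3 := Finset.prod_univ_sum (R := ℝ) (ι := Fin n) (κ := fun _ => Fin d → Fin (2 * M))
    (fun _ => Finset.univ)
    (fun _ s => (1 + ∏ i, (chi (bit (s i) (p i)) * chi (bit (s i) (p' i)))) / 2)
  rw [Fintype.piFinset_univ] at h3
  rw [← h3]
  have h4 : ∑ s : Fin d → Fin (2 * M), ∏ i, (chi (bit (s i) (p i)) * chi (bit (s i) (p' i))) =
      (2 * (M : ℝ)) ^ d * ∏ i, rho M (p i) (p' i) := by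
    have h5 := Finset.prod_univ_sum (R := ℝ) (ι := Fin d) (κ := fun _ => Fin (2 * M))
      (fun _ => Finset.univ)
      (fun i x => chi (bit x (p i)) * chi (bit x (p' i)))
    rw [Fintype.piFinset_univ] at h5
    rw [← h5]
    have h6 : ∀ i, ∑ x : Fin (2 * M), chi (bit x (p i)) * chi (bit x (p' i)) =
        (2 * (M : ℝ)) * rho M (p i) (p' i) := by
      intro i
      rw [sum_chi M (p i) (p' i) (p i).2 (p' i).2]
      unfold rho
      field_simp
    rw [Finset.prod_congr rfl (fun i _ => h6 i), Finset.prod_mul_distrib, Finset.prod_const,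
      Finset.card_univ, Fintype.card_fin]
  have h7 : ∑ s : Fin d → Fin (2 * M),
      (1 + ∏ i, (chi (bit (s i) (p i)) * chi (bit (s i) (p' i)))) / 2 =
      (2 * (M : ℝ)) ^ d * ((1 + ∏ i, rho M (p i) (p' i)) / 2) := by
    rw [← Finset.sum_div, Finset.sum_add_distrib, h4, Finset.sum_const, Finset.card_univ]
    simp only [Fintype.card_pi, Fintype.card_fin, Finset.prod_const, Finset.card_univ, nsmul_eq_mul,
      mul_one]
    push_cast
    ring
  rw [h7, Finset.prod_const, Finset.card_univ, Fintype.card_fin, mul_pow]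

theorem exists_coll (n d M : ℕ) (hM : 0 < M) :
    ∃ t : Fin n → Fin d → Fin (2 * M), coll t ≤
      ∑ p : Fin d → Fin M, ∑ p' : Fin d → Fin M, ((1 + ∏ i, rho M (p i) (p' i)) / 2) ^ n := by
  by_contra hcon
  push Not at hcon
  set C := ∑ p : Fin d → Fin M, ∑ p' : Fin d → Fin M, ((1 + ∏ i, rho M (p i) (p' i)) / 2) ^ n
  have h1 : ∑ t : Fin n → Fin d → Fin (2 * M), coll t = ((2 * (M : ℝ)) ^ d) ^ n * C := by
    unfold coll
    rw [Finset.sum_comm]
    rw [Finset.mul_sum]
    apply Finset.sum_congr rfl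
    intro p _
    rw [Finset.sum_comm, Finset.mul_sum]
    apply Finset.sum_congr rfl
    intro p' _
    rw [sum_ind p p' hM]
  have hne : (Finset.univ : Finset (Fin n → Fin d → Fin (2 * M))).Nonempty :=
    ⟨fun _ _ => ⟨0, by omega⟩, Finset.mem_univ _⟩
  have h2 : ∑ t : Fin n → Fin d → Fin (2 * M), C < ∑ t : Fin n → Fin d → Fin (2 * M), coll t :=
    Finset.sum_lt_sum_of_nonempty hne (fun t _ => hcon t)
  rw [h1, Finset.sum_const, Finset.card_univ, nsmul_eq_mul] at h2
  simp only [Fintype.card_pi, Fintype.card_fin, Finset.prod_const, Finset.card_univ] at h2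
  push_cast at h2
  exact lt_irrefl _ h2

end

end Pool.Agent.MP_e52733_co
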