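import Mathlib

set_option autoImplicit false

namespace Pool.Agent.MP_e52733_co

section
variable {G : Type*} [AddCommGroup G] [Fintype G] [DecidableEq G]

/-- some translate meets `U` in at most the average number of points -/
theorem exists_shift (U : Finset G) :
    ∃ v : G, (U.filter (fun x => x + v ∈ U)).card * Fintype.card G ≤ U.card ^ 2 := by
  by_contra hcon
  push Not at hcon
  have h1 : ∑ v : G, (U.filter (fun x => x + v ∈ U)).card = U.card ^ 2 := by
    have h2 : ∀ v : G, (U.filter (fun x => x + v ∈ U)).card = ∑ x ∈ U, if x + v ∈ U then 1 else 0 := by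
      intro v
      rw [Finset.card_filter]
    rw [Finset.sum_congr rfl (fun v _ => h2 v), Finset.sum_comm]
    have h3 : ∀ x ∈ U, ∑ v : G, (if x + v ∈ U then 1 else 0) = U.card := by
      intro x _
      rw [← Finset.card_filter]
      apply Finset.card_bij (fun v _ => x + v)
      · intro v hv
        exact (Finset.mem_filter.mp hv).2
      · intro a _ b _ h
        exact add_left_cancel h
      · intro y hy
        refine ⟨y - x, ?_, by abel⟩
        rw [Finset.mem_filter]
        refine ⟨Finset.mem_univ _, ?_⟩
        rw [show x + (y - x) = y by abel]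
        exact hy
    rw [Finset.sum_congr rfl h3, Finset.sum_const, smul_eq_mul, sq]
  have hne : (Finset.univ : Finset G).Nonempty := ⟨0, Finset.mem_univ _⟩
  have h4 : ∑ v : G, U.card ^ 2 < ∑ v : G, (U.filter (fun x => x + v ∈ U)).card * Fintype.card G :=
    Finset.sum_lt_sum_of_nonempty hne (fun v _ => hcon v)
  rw [← Finset.sum_mul, h1, Finset.sum_const, Finset.card_univ, smul_eq_mul, mul_comm] at h4
  exact lt_irrefl _ h4

/-- points not reached from `H` by subset sums of `v` -/
def uncovered (H : Finset G) {k : ℕ} (v : Fin k → G) : Finset G :=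
  Finset.univ.filter (fun x => ∀ s : Finset (Fin k), x + ∑ i ∈ s, v i ∉ H)

theorem uncovered_bound (H : Finset G) (k : ℕ) :
    ∃ v : Fin k → G, ((uncovered H v).card : ℝ) ≤
      (1 - (H.card : ℝ) / Fintype.card G) ^ (2 ^ k) * Fintype.card G := by
  have hG : (0 : ℝ) < Fintype.card G := by exact_mod_cast Fintype.card_pos
  induction k with
  | zero =>
    refine ⟨Fin.elim0, ?_⟩
    have h1 : uncovered H (Fin.elim0 : Fin 0 → G) = Finset.univ \ H := by
      ext x
      simp only [uncovered, Finset.mem_filter, Finset.mem_univ, true_and, Finset.mem_sdiff]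
      constructor
      · intro h
        have := h ∅
        simpa using this
      · intro h s
        rw [Finset.eq_empty_of_isEmpty s]
        simpa using h
    rw [h1, Finset.card_sdiff_of_subset (Finset.subset_univ H), Finset.card_univ]
    have h2 : H.card ≤ Fintype.card G := Finset.card_le_univ H
    push_cast [Nat.cast_sub h2]
    rw [pow_one, sub_mul, one_mul, div_mul_cancel₀ _ hG.ne']
  | succ k ih =>
    obtain ⟨v, hv⟩ := ih
    obtain ⟨w, hw⟩ := exists_shift (uncovered H v)
    refine ⟨Fin.snoc v w, ?_⟩
    have hsub : uncovered H (Fin.snoc v w : Fin (k + 1) → G) ⊆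
        (uncovered H v).filter (fun x => x + w ∈ uncovered H v) := by
      intro x hx
      simp only [uncovered, Finset.mem_filter, Finset.mem_univ, true_and] at hx ⊢
      constructor
      · intro s
        have := hx (s.map Fin.castSuccEmb)
        rw [Finset.sum_map] at this
        simpa using this
      · intro s
        have := hx (insert (Fin.last k) (s.map Fin.castSuccEmb))
        rw [Finset.sum_insert, Finset.sum_map] at this
        · simp only [Fin.snoc_last, Fin.castSuccEmb_apply, Fin.snoc_castSucc] at this
          rw [← add_assoc] at this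
          exact this
        · simp only [Finset.mem_map, Fin.castSuccEmb_apply, not_exists, not_and]
          intro i _ h
          exact absurd h (Fin.castSucc_lt_last i).ne
    have h1 := Finset.card_le_card hsub
    have h2 : ((uncovered H (Fin.snoc v w : Fin (k + 1) → G)).card : ℝ) * Fintype.card G ≤
        ((uncovered H v).card : ℝ) ^ 2 := by
      have : (uncovered H (Fin.snoc v w : Fin (k + 1) → G)).card * Fintype.card G ≤
          (uncovered H v).card ^ 2 := (Nat.mul_le_mul_right _ h1).trans hw
      exact_mod_cast this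
    have h3 : ((uncovered H v).card : ℝ) ^ 2 ≤
        ((1 - (H.card : ℝ) / Fintype.card G) ^ (2 ^ k) * Fintype.card G) ^ 2 :=
      pow_le_pow_left₀ (by positivity) hv 2
    have h4 : ((1 - (H.card : ℝ) / Fintype.card G) ^ (2 ^ k) * Fintype.card G) ^ 2 =
        (1 - (H.card : ℝ) / Fintype.card G) ^ (2 ^ (k + 1)) * Fintype.card G * Fintype.card G := by
      rw [mul_pow, ← pow_mul, pow_succ 2 k]
      ring
    rw [h4] at h3
    exact le_of_mul_le_mul_right (h2.trans h3) hG

/-- If `H` has density at least `1/a` and `a * log |G| < 2^k` then `k` vectors suffice. -/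
theorem cover_of_density (H : Finset G) (k : ℕ) {a : ℝ} (ha : 0 < a)
    (hH : (Fintype.card G : ℝ) ≤ a * H.card) (hk : a * Real.log (Fintype.card G) < 2 ^ k) :
    ∃ v : Fin k → G, ∀ x : G, ∃ s : Finset (Fin k), x + ∑ i ∈ s, v i ∈ H := by
  have hG : (0 : ℝ) < Fintype.card G := by exact_mod_cast Fintype.card_pos
  obtain ⟨v, hv⟩ := uncovered_bound H k
  refine ⟨v, ?_⟩
  have hd : 1 / a ≤ (H.card : ℝ) / Fintype.card G := by
    rw [div_le_div_iff₀ ha hG]
    linarith
  have hle1 : (H.card : ℝ) / Fintype.card G ≤ 1 := by
    rw [div_le_one hG]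
    exact_mod_cast Finset.card_le_univ H
  have h1 : 1 - (H.card : ℝ) / Fintype.card G ≤ Real.exp (-(1 / a)) := by
    have := Real.add_one_le_exp (-(1 / a))
    linarith
  have h2 : (1 - (H.card : ℝ) / Fintype.card G) ^ (2 ^ k) ≤ Real.exp (-(1 / a)) ^ (2 ^ k) :=
    pow_le_pow_left₀ (by linarith) h1 _
  have h3 : Real.exp (-(1 / a)) ^ (2 ^ k) * Fintype.card G < 1 := by
    rw [← Real.exp_nat_mul]
    have : (Fintype.card G : ℝ) = Real.exp (Real.log (Fintype.card G)) := (Real.exp_log hG).symm
    conv_lhs => rw [this]
    rw [← Real.exp_add, Real.exp_lt_one_iff]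
    push_cast
    have : Real.log (Fintype.card G) < 2 ^ k / a := by
      rw [lt_div_iff₀ ha]
      linarith
    have e : (2 : ℝ) ^ k * -(1 / a) = - (2 ^ k / a) := by ring
    rw [e]
    linarith
  have h4 : ((uncovered H v).card : ℝ) < 1 := by
    calc ((uncovered H v).card : ℝ) ≤ _ := hv
      _ ≤ Real.exp (-(1 / a)) ^ (2 ^ k) * Fintype.card G := mul_le_mul_of_nonneg_right h2 hG.le
      _ < 1 := h3
  have h5 : (uncovered H v).card = 0 := by
    have : (uncovered H v).card < 1 := by exact_mod_cast h4
    omega
  rw [Finset.card_eq_zero] at h5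
  intro x
  by_contra hcon
  push Not at hcon
  have : x ∈ uncovered H v := by
    simp only [uncovered, Finset.mem_filter, Finset.mem_univ, true_and]
    exact hcon
  rw [h5] at this
  exact absurd this (Finset.notMem_empty x)

end

end Pool.Agent.MP_e52733_co
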