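import Pool.Agent.MP_e52733_co.Moment
import Pool.Agent.MP_e52733_co.Cover

set_option autoImplicit false

namespace Pool.Agent.MP_e52733_co

/-- Every 0/1 vector on `Fin n` is a sum of threshold vectors. -/
def Covers {n : ℕ} {ι : Type} [Fintype ι] (t : Fin n → ι → ℕ) : Prop :=
  ∀ S : Fin n → ZMod 2, ∃ p : ι → ℕ, ∀ b, ∑ i, bit (t b i) (p i) = S b

theorem exists_covers (n d M k : ℕ) (hM : 0 < M)
    (hk : Aquant n d M * (n * Real.log 2) < 2 ^ k) :
    ∃ t : Fin n → (Fin d ⊕ Fin k) → ℕ, Covers t := by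
  classical
  obtain ⟨t, ht⟩ := exists_image n d M hM
  have hA : 0 < Aquant n d M := by
    have h1 : (0 : ℝ) < 2 ^ n := by positivity
    by_contra hcon
    push Not at hcon
    have h2 : (0 : ℝ) ≤ ((Finset.univ.image (Phi t)).card : ℝ) := by positivity
    nlinarith [mul_nonneg_of_nonpos_of_nonpos hcon (neg_nonpos.mpr h2)]
  have hcard : (Fintype.card (Fin n → ZMod 2) : ℝ) = 2 ^ n := by
    simp [ZMod.card]
  obtain ⟨v, hv⟩ := cover_of_density (Finset.univ.image (Phi t)) k hA
    (by rw [hcard]; exact ht)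
    (by
      rw [hcard, Real.log_pow]
      exact hk)
  refine ⟨fun b => Sum.elim (fun i => (t b i : ℕ)) (fun j => if v j b = 1 then 1 else 2), ?_⟩
  intro S
  obtain ⟨s, hs⟩ := hv S
  rw [Finset.mem_image] at hs
  obtain ⟨p, -, hp⟩ := hs
  refine ⟨Sum.elim (fun i => (p i : ℕ)) (fun j => if j ∈ s then 1 else 0), ?_⟩
  intro b
  rw [Fintype.sum_sum_type]
  simp only [Sum.elim_inl, Sum.elim_inr]
  have h1 : ∑ i, bit (t b i) (p i) = S b + ∑ j ∈ s, v j b := by
    have := congrFun hp b
    simp only [Phi, Pi.add_apply, Finset.sum_apply] at this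
    exact this
  have h2 : ∑ j : Fin k, bit (if v j b = 1 then 1 else 2) (if j ∈ s then 1 else 0) = ∑ j ∈ s, v j b := by
    rw [← Finset.sum_filter_add_sum_filter_not Finset.univ (fun j => j ∈ s)]
    have e1 : Finset.univ.filter (fun j => j ∈ s) = s := by ext j; simp
    have h3 : ∑ j ∈ Finset.univ.filter (fun j => j ∉ s),
        bit (if v j b = 1 then 1 else 2) (if j ∈ s then 1 else 0) = 0 := by
      apply Finset.sum_eq_zero
      intro j hj
      rw [Finset.mem_filter] at hj
      rw [if_neg hj.2]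
      unfold bit
      split_ifs <;> simp_all
    rw [h3, add_zero, e1]
    apply Finset.sum_congr rfl
    intro j hj
    rw [if_pos hj]
    unfold bit
    rcases zmod2_cases (v j b) with h | h
    · rw [h]; simp
    · rw [h]; simp
  rw [h1, h2]
  have h4 : ∀ a : ZMod 2, a + a = 0 := by decide
  rw [add_assoc, h4, add_zero]

end Pool.Agent.MP_e52733_co
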