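import Mathlib

set_option autoImplicit false

namespace Pool.Agent.MP_e52733_co

/-- The vector of answers `q_i(x,y)`: is `x < y` in the `i`-th linear order? -/
noncomputable def query {X : Type} {d : ℕ} (L : Fin d → LinearOrder X) (x y : X) : Fin d → Bool :=
  fun i => @decide ((L i).lt x y) (Classical.propDecidable _)

/-- `X` has a Boolean realizer of size `d`. -/
def HasBooleanRealizer (X : Type) [PartialOrder X] (d : ℕ) : Prop :=
  ∃ (L : Fin d → LinearOrder X) (τ : (Fin d → Bool) → Bool),
    ∀ x y : X, x ≠ y → (x < y ↔ τ (query L x y) = true)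

/-- Boolean dimension: the least `d ≥ 1` such that there is a Boolean realizer of size `d`. -/
noncomputable def bdim (X : Type) [PartialOrder X] : ℕ :=
  sInf {d | 1 ≤ d ∧ HasBooleanRealizer X d}

/-- The poset is an antichain plus `n` points: some set `B` of exactly `n` elements has a
complement which is an antichain. -/
def AntichainPlus (X : Type) [PartialOrder X] (n : ℕ) : Prop :=
  ∃ B : Finset X, B.card = n ∧ IsAntichain (fun x y : X => x ≤ y) {x | x ∉ B}

/-- `f n`: the maximum Boolean dimension of a finite poset that is an antichain plus `n` points. -/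
noncomputable def f (n : ℕ) : ℕ :=
  sSup {m | ∃ (X : Type) (_ : Finite X) (_ : PartialOrder X), AntichainPlus X n ∧ m = bdim X}

end Pool.Agent.MP_e52733_co
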