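import Pool.Agent.MP_e52733_co.Realizer

set_option autoImplicit false

namespace Pool.Agent.MP_e52733_co

/-- `n` minimal points `pt b` together with one point `st S` above every subset `S` of them. -/
inductive Inc (n : ℕ) : Type
  | pt (b : Fin n)
  | st (S : Finset (Fin n))

def Inc.equiv (n : ℕ) : Inc n ≃ (Fin n ⊕ Finset (Fin n)) where
  toFun x := match x with
    | Inc.pt b => Sum.inl b
    | Inc.st S => Sum.inr S
  invFun x := match x with
    | Sum.inl b => Inc.pt b
    | Sum.inr S => Inc.st S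
  left_inv x := by cases x <;> rfl
  right_inv x := by cases x <;> rfl

instance (n : ℕ) : Finite (Inc n) := Finite.of_equiv _ (Inc.equiv n).symm

instance (n : ℕ) : PartialOrder (Inc n) where
  le x y := x = y ∨ ∃ (b : Fin n) (S : Finset (Fin n)), x = Inc.pt b ∧ y = Inc.st S ∧ b ∈ S
  le_refl x := Or.inl rfl
  le_trans x y z := by
    rintro (rfl | ⟨b, S, rfl, rfl, hb⟩) (rfl | ⟨b', S', h1, h2, hb'⟩)
    · exact Or.inl rfl
    · exact Or.inr ⟨b', S', h1, h2, hb'⟩
    · exact Or.inr ⟨b, S, rfl, rfl, hb⟩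
    · exact absurd h1 (by simp)
  le_antisymm x y := by
    rintro (rfl | ⟨b, S, rfl, rfl, hb⟩) (h | ⟨b', S', h1, h2, hb'⟩)
    · rfl
    · rfl
    · exact h.symm
    · exact absurd h1 (by simp)

theorem Inc.le_def {n : ℕ} (x y : Inc n) : x ≤ y ↔
    (x = y ∨ ∃ (b : Fin n) (S : Finset (Fin n)), x = Inc.pt b ∧ y = Inc.st S ∧ b ∈ S) := Iff.rfl

theorem Inc.lt_iff {n : ℕ} (b : Fin n) (S : Finset (Fin n)) :
    (Inc.pt b < Inc.st S) ↔ b ∈ S := by
  rw [lt_iff_le_and_ne, Inc.le_def]
  constructor
  · rintro ⟨h | ⟨b', S', h1, h2, h3⟩, hne⟩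
    · exact absurd h hne
    · injection h1 with e1
      injection h2 with e2
      rw [e1, e2]
      exact h3
  · intro h
    exact ⟨Or.inr ⟨b, S, rfl, rfl, h⟩, by simp⟩

theorem Inc.antichainPlus (n : ℕ) : AntichainPlus (Inc n) n := by
  classical
  refine ⟨(Finset.univ : Finset (Fin n)).map ⟨Inc.pt, fun _ _ h => by injection h⟩, ?_, ?_⟩
  · rw [Finset.card_map, Finset.card_univ, Fintype.card_fin]
  · intro x hx y hy hne hle
    rcases (Inc.le_def x y).mp hle with h | ⟨b, S, rfl, -, -⟩
    · exact hne h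
    · apply hx
      exact Finset.mem_map.mpr ⟨b, Finset.mem_univ _, rfl⟩

theorem Inc.lower {n d : ℕ} (h : HasBooleanRealizer (Inc n) d) : 2 ^ n ≤ (n + 1) ^ d := by
  classical
  obtain ⟨L, τ, hτ⟩ := h
  let D : Fin d → Finset (Fin n) → Finset (Fin n) := fun i S =>
    Finset.univ.filter (fun b => (L i).lt (Inc.pt b) (Inc.st S))
  have hmem : ∀ i S b, b ∈ D i S ↔ (L i).lt (Inc.pt b) (Inc.st S) := fun i S b => by simp [D]
  have hsub : ∀ i S S', (L i).le (Inc.st S) (Inc.st S') → D i S ⊆ D i S' := by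
    intro i S S' hle b hb
    rw [hmem] at hb ⊢
    exact @lt_of_lt_of_le _ (L i).toPreorder _ _ _ hb hle
  let code : Finset (Fin n) → (Fin d → Fin (n + 1)) := fun S i =>
    ⟨(D i S).card, Nat.lt_succ_of_le (by
      have := Finset.card_le_univ (D i S)
      rwa [Fintype.card_fin] at this)⟩
  have hinj : Function.Injective code := by
    intro S S' heq
    have hD : ∀ i, D i S = D i S' := by
      intro i
      have hc : (D i S).card = (D i S').card := congrArg Fin.val (congrFun heq i)
      rcases (L i).le_total (Inc.st S) (Inc.st S') with h1 | h1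
      · exact Finset.eq_of_subset_of_card_le (hsub i S S' h1) hc.ge
      · exact (Finset.eq_of_subset_of_card_le (hsub i S' S h1) hc.le).symm
    ext b
    have hq : query L (Inc.pt b) (Inc.st S) = query L (Inc.pt b) (Inc.st S') := by
      funext i
      unfold query
      rw [decide_eq_decide]
      have := Finset.ext_iff.mp (hD i) b
      rw [hmem, hmem] at this
      exact this
    have h1 := hτ (Inc.pt b) (Inc.st S) (by simp)
    have h2 := hτ (Inc.pt b) (Inc.st S') (by simp)
    rw [Inc.lt_iff] at h1 h2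
    rw [h1, h2, hq]
  have := Fintype.card_le_of_injective code hinj
  simpa using this

/-- trivial covering system -/
theorem trivial_covers (n : ℕ) : Covers (fun (b : Fin n) (i : Fin n) => if b = i then 1 else 2) := by
  classical
  intro S
  refine ⟨fun i => if S i = 1 then 1 else 0, fun b => ?_⟩
  rw [Finset.sum_eq_single b]
  · unfold bit
    rcases zmod2_cases (S b) with h | h <;> simp [h]
  · intro i _ hne
    have hne' : ¬ (b = i) := fun h => hne h.symm
    unfold bit
    simp only [hne', if_false]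
    split_ifs <;> simp_all
  · intro h
    exact absurd (Finset.mem_univ b) h

/-- All the values in the definition of `f n` are bounded. -/
theorem f_bddAbove (n : ℕ) :
    BddAbove {m | ∃ (X : Type) (_ : Finite X) (_ : PartialOrder X), AntichainPlus X n ∧ m = bdim X} := by
  refine ⟨3 + 3 * n + Fintype.card (Fin n), ?_⟩
  rintro m ⟨X, _, _, hX, rfl⟩
  exact bdim_le_of_covers (l := n) Nat.lt_two_pow_self.le hX (trivial_covers n)

theorem f_le_of_covers {n l : ℕ} (hn : n ≤ 2 ^ l) {ι : Type} [Fintype ι] {t : Fin n → ι → ℕ}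
    (ht : Covers t) : f n ≤ 3 + 3 * l + Fintype.card ι := by
  apply csSup_le'
  rintro m ⟨X, _, _, hX, rfl⟩
  exact bdim_le_of_covers hn hX ht

/-- The lower bound by counting. -/
theorem f_lower (n : ℕ) : 2 ^ n ≤ (n + 1) ^ f n := by
  have hne : {d | 1 ≤ d ∧ HasBooleanRealizer (Inc n) d}.Nonempty :=
    ⟨_, by omega, realizer_of_covers (l := n) Nat.lt_two_pow_self.le (Inc.antichainPlus n)
      (trivial_covers n)⟩
  have h1 := Nat.sInf_mem hne
  have h2 := Inc.lower h1.2
  have h3 : bdim (Inc n) ≤ f n := by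
    apply le_csSup (f_bddAbove n)
    exact ⟨Inc n, inferInstance, inferInstance, Inc.antichainPlus n, rfl⟩
  exact h2.trans (Nat.pow_le_pow_right (by omega) h3)

end Pool.Agent.MP_e52733_co
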