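import Pool.Agent.MP_e52733_co.Collide

set_option autoImplicit false

namespace Pool.Agent.MP_e52733_co

theorem pow_sum_le (w M : ℕ) : ∑ i ∈ Finset.range M, (i : ℝ) ^ (w + 1) ≤ (M : ℝ) ^ (w + 2) / (w + 2) := by
  induction M with
  | zero => simp
  | succ M ih =>
    rw [Finset.sum_range_succ]
    have hb : (M : ℝ) ^ (w + 2) + (w + 2) * (M : ℝ) ^ (w + 1) ≤ ((M : ℝ) + 1) ^ (w + 2) := by
      rw [add_pow]
      rw [Finset.sum_range_succ, Finset.sum_range_succ]
      have h1 : (0 : ℝ) ≤ ∑ x ∈ Finset.range (w + 1), (M : ℝ) ^ x * 1 ^ (w + 2 - x) * ((w + 2).choose x) := by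
        positivity
      have h2 : (w + 2).choose (w + 1) = w + 2 := by
        rw [show w + 2 = (w + 1) + 1 by omega, Nat.choose_succ_self_right]
      rw [h2]
      simp only [one_pow, mul_one, Nat.choose_self, Nat.cast_one]
      push_cast
      simp only [one_pow, mul_one] at h1
      linarith
    have hw : (0 : ℝ) < w + 2 := by positivity
    rw [le_div_iff₀ hw] at ih ⊢
    push_cast
    nlinarith

theorem double_sum (h : ℕ → ℝ) (M : ℕ) :
    ∑ K ∈ Finset.range M, ∑ j ∈ Finset.range K, h j = ∑ j ∈ Finset.range M, ((M : ℝ) - 1 - j) * h j := by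
  induction M with
  | zero => simp
  | succ M ih =>
    rw [Finset.sum_range_succ, ih, Finset.sum_range_succ, ← Finset.sum_add_distrib]
    push_cast
    have : ((M : ℝ) + 1 - 1 - M) * h M = 0 := by ring
    rw [this, add_zero]
    apply Finset.sum_congr rfl
    intro j _
    ring

theorem square_sum (g : ℕ → ℝ) (K : ℕ) :
    ∑ x ∈ Finset.range K, ∑ y ∈ Finset.range K, g (Int.natAbs ((x : ℤ) - y)) =
      ∑ L ∈ Finset.range K, (g 0 + 2 * ∑ j ∈ Finset.range L, g (j + 1)) := by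
  induction K with
  | zero => simp
  | succ K ih =>
    rw [Finset.sum_range_succ _ K, Finset.sum_range_succ (fun L => g 0 + 2 * ∑ j ∈ Finset.range L, g (j + 1)), ← ih]
    have h1 : ∀ x ∈ Finset.range K, ∑ y ∈ Finset.range (K + 1), g (Int.natAbs ((x : ℤ) - y)) =
        (∑ y ∈ Finset.range K, g (Int.natAbs ((x : ℤ) - y))) + g (Int.natAbs ((x : ℤ) - K)) := by
      intro x _
      rw [Finset.sum_range_succ]
    rw [Finset.sum_congr rfl h1, Finset.sum_add_distrib, Finset.sum_range_succ _ K]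
    have h2 : ∑ x ∈ Finset.range K, g (Int.natAbs ((x : ℤ) - K)) = ∑ j ∈ Finset.range K, g (j + 1) := by
      rw [← Finset.sum_range_reflect]
      apply Finset.sum_congr rfl
      intro j hj
      rw [Finset.mem_range] at hj
      congr 1
      omega
    have h3 : ∑ y ∈ Finset.range K, g (Int.natAbs ((K : ℤ) - y)) = ∑ j ∈ Finset.range K, g (j + 1) := by
      rw [← h2]
      apply Finset.sum_congr rfl
      intro j hj
      congr 1
      omega
    have h4 : Int.natAbs ((K : ℤ) - K) = 0 := by simp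
    rw [h2, h3, h4]
    ring

noncomputable def Smom (M w : ℕ) : ℝ := ∑ x : Fin M, ∑ y : Fin M, rho M x y ^ w

theorem Smom_le (M w : ℕ) (hM : 0 < M) : Smom M w ≤ (M : ℝ) ^ 2 * (1 / M + 2 / (w + 2)) := by
  have hM' : (0 : ℝ) < M := by positivity
  set g : ℕ → ℝ := fun j => (((M : ℝ) - j) / M) ^ w with hg
  have h1 : Smom M w = ∑ x ∈ Finset.range M, ∑ y ∈ Finset.range M, g (Int.natAbs ((x : ℤ) - y)) := by
    unfold Smom
    rw [← Fin.sum_univ_eq_sum_range (fun x => ∑ y ∈ Finset.range M, g (Int.natAbs ((x : ℤ) - y))) M]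
    apply Finset.sum_congr rfl
    intro x _
    rw [← Fin.sum_univ_eq_sum_range (fun y => g (Int.natAbs (((x : ℕ) : ℤ) - y))) M]
    apply Finset.sum_congr rfl
    intro y _
    simp only [hg, rho]
    congr 2
    congr 1
    rw [Nat.cast_natAbs]
    push_cast
    rfl
  rw [h1, square_sum, Finset.sum_add_distrib, ← Finset.mul_sum, double_sum (fun j => g (j + 1)),
    Finset.sum_const, Finset.card_range, nsmul_eq_mul]
  have hg0 : g 0 = 1 := by simp [hg, hM'.ne']
  have h2 : ∀ j ∈ Finset.range M, ((M : ℝ) - 1 - j) * g (j + 1) =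
      (((M - 1 - j : ℕ) : ℝ)) ^ (w + 1) / (M : ℝ) ^ w := by
    intro j hj
    rw [Finset.mem_range] at hj
    have : ((M - 1 - j : ℕ) : ℝ) = (M : ℝ) - 1 - j := by
      rw [Nat.cast_sub (by omega), Nat.cast_sub (by omega)]
      simp
    rw [this]
    simp only [hg]
    push_cast
    rw [div_pow, pow_succ]
    have : (M : ℝ) - (j + 1) = M - 1 - j := by ring
    rw [this]
    ring
  rw [Finset.sum_congr rfl h2, ← Finset.sum_div, Finset.sum_range_reflect (fun i => (i : ℝ) ^ (w + 1)) M,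
    hg0]
  have h3 := pow_sum_le w M
  have h4 : (∑ i ∈ Finset.range M, (i : ℝ) ^ (w + 1)) / (M : ℝ) ^ w ≤ (M : ℝ) ^ 2 / (w + 2) := by
    rw [div_le_iff₀ (by positivity)]
    calc _ ≤ (M : ℝ) ^ (w + 2) / (w + 2) := h3
      _ = _ := by rw [pow_add]; ring
  have e : (M : ℝ) ^ 2 * (1 / M + 2 / (w + 2)) = M * 1 + 2 * ((M : ℝ) ^ 2 / (w + 2)) := by
    field_simp
  rw [e]
  linarith

theorem Smom_nonneg (M w : ℕ) : 0 ≤ Smom M w := by
  unfold Smom
  apply Finset.sum_nonneg
  intro x _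
  apply Finset.sum_nonneg
  intro y _
  apply pow_nonneg
  unfold rho
  apply div_nonneg _ (by positivity)
  have hx := x.2
  have hy := y.2
  have hx' : ((x : ℕ) : ℝ) < M := by exact_mod_cast hx
  have hy' : ((y : ℕ) : ℝ) < M := by exact_mod_cast hy
  have hx0 : (0 : ℝ) ≤ ((x : ℕ) : ℝ) := by positivity
  have hy0 : (0 : ℝ) ≤ ((y : ℕ) : ℝ) := by positivity
  have : |((x : ℕ) : ℝ) - ((y : ℕ) : ℝ)| ≤ M := by
    rw [abs_le]; constructor <;> linarith
  linarith

theorem pair_sum {d M : ℕ} (f : Fin M → Fin M → ℝ) :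
    ∑ p : Fin d → Fin M, ∑ p' : Fin d → Fin M, ∏ i, f (p i) (p' i) =
      (∑ x : Fin M, ∑ y : Fin M, f x y) ^ d := by
  have h1 : ∀ p : Fin d → Fin M, ∑ p' : Fin d → Fin M, ∏ i, f (p i) (p' i) =
      ∏ i, ∑ y : Fin M, f (p i) y := by
    intro p
    have h := Finset.prod_univ_sum (R := ℝ) (ι := Fin d) (κ := fun _ => Fin M)
      (fun _ => Finset.univ) (fun i y => f (p i) y)
    rw [Fintype.piFinset_univ] at h
    rw [← h]
  rw [Finset.sum_congr rfl (fun p _ => h1 p)]
  have h := Finset.prod_univ_sum (R := ℝ) (ι := Fin d) (κ := fun _ => Fin M)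
    (fun _ => Finset.univ) (fun _ x => ∑ y : Fin M, f x y)
  rw [Fintype.piFinset_univ] at h
  rw [← h, Finset.prod_const, Finset.card_univ, Fintype.card_fin]

theorem moment_sum (n d M : ℕ) :
    ∑ p : Fin d → Fin M, ∑ p' : Fin d → Fin M, ((1 + ∏ i, rho M (p i) (p' i)) / 2) ^ n =
      (1 / 2) ^ n * ∑ w ∈ Finset.range (n + 1), (n.choose w : ℝ) * Smom M w ^ d := by
  have h1 : ∀ p p' : Fin d → Fin M, ((1 + ∏ i, rho M (p i) (p' i)) / 2) ^ n =
      (1 / 2) ^ n * ∑ w ∈ Finset.range (n + 1), (n.choose w : ℝ) * ∏ i, rho M (p i) (p' i) ^ w := by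
    intro p p'
    rw [div_pow, add_comm, add_pow]
    rw [Finset.sum_div, Finset.mul_sum]
    apply Finset.sum_congr rfl
    intro w _
    rw [Finset.prod_pow]
    simp only [one_pow, mul_one, one_div, inv_pow]
    ring
  simp only [h1]
  simp only [← Finset.mul_sum]
  congr 1
  have h2 : ∀ p : Fin d → Fin M, ∑ p' : Fin d → Fin M, ∑ w ∈ Finset.range (n + 1),
      (n.choose w : ℝ) * ∏ i, rho M (p i) (p' i) ^ w =
      ∑ w ∈ Finset.range (n + 1), ∑ p' : Fin d → Fin M,
      (n.choose w : ℝ) * ∏ i, rho M (p i) (p' i) ^ w := fun p => Finset.sum_comm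
  rw [Finset.sum_congr rfl (fun p _ => h2 p), Finset.sum_comm]
  apply Finset.sum_congr rfl
  intro w _
  simp only [← Finset.mul_sum]
  congr 1
  exact pair_sum (fun x y => rho M x y ^ w)

/-- The quantity controlling collisions. -/
noncomputable def Aquant (n d M : ℕ) : ℝ :=
  ∑ w ∈ Finset.range (n + 1), (n.choose w : ℝ) * (1 / M + 2 / (w + 2)) ^ d

theorem exists_image (n d M : ℕ) (hM : 0 < M) :
    ∃ t : Fin n → Fin d → Fin (2 * M),
      (2 : ℝ) ^ n ≤ Aquant n d M * (Finset.univ.image (Phi t)).card := by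
  classical
  obtain ⟨t, ht⟩ := exists_coll n d M hM
  refine ⟨t, ?_⟩
  have hM' : (0 : ℝ) < M := by positivity
  have h1 : coll t ≤ (1 / 2) ^ n * ((M : ℝ) ^ (2 * d) * Aquant n d M) := by
    refine ht.trans ?_
    rw [moment_sum]
    apply mul_le_mul_of_nonneg_left _ (by positivity)
    unfold Aquant
    rw [Finset.mul_sum]
    apply Finset.sum_le_sum
    intro w _
    have h2 : Smom M w ^ d ≤ ((M : ℝ) ^ 2 * (1 / M + 2 / (w + 2))) ^ d :=
      pow_le_pow_left₀ (Smom_nonneg M w) (Smom_le M w hM) d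
    calc (n.choose w : ℝ) * Smom M w ^ d ≤ (n.choose w : ℝ) * ((M : ℝ) ^ 2 * (1 / M + 2 / (w + 2))) ^ d :=
          mul_le_mul_of_nonneg_left h2 (by positivity)
      _ = _ := by rw [mul_pow, ← pow_mul]; ring
  -- Cauchy–Schwarz
  set I := Finset.univ.image (Phi t) with hI
  have h3 : ((M : ℝ) ^ d) = ∑ y ∈ I, ((Finset.univ.filter (fun p => Phi t p = y)).card : ℝ) := by
    have := Finset.card_eq_sum_card_image (Phi t) (Finset.univ : Finset (Fin d → Fin M))
    rw [Finset.card_univ] at this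
    simp only [Fintype.card_pi, Fintype.card_fin, Finset.prod_const, Finset.card_univ] at this
    exact_mod_cast this
  have h4 : coll t = ∑ y ∈ I, ((Finset.univ.filter (fun p => Phi t p = y)).card : ℝ) ^ 2 := by
    unfold coll
    have h5 : ∀ p : Fin d → Fin M, (∑ p' : Fin d → Fin M, if Phi t p = Phi t p' then (1 : ℝ) else 0) =
        ((Finset.univ.filter (fun p' => Phi t p' = Phi t p)).card : ℝ) := by
      intro p
      rw [Finset.card_filter]
      push_cast
      apply Finset.sum_congr rfl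
      intro p' _
      simp only [eq_comm]
    rw [Finset.sum_congr rfl (fun p _ => h5 p)]
    rw [← Finset.sum_fiberwise_of_maps_to (s := Finset.univ) (t := I) (g := Phi t)
      (fun p _ => Finset.mem_image_of_mem _ (Finset.mem_univ p))]
    apply Finset.sum_congr rfl
    intro y _
    rw [Finset.sum_congr rfl (g := fun _ => ((Finset.univ.filter (fun p => Phi t p = y)).card : ℝ))
      (fun p hp => by rw [(Finset.mem_filter.mp hp).2])]
    rw [Finset.sum_const, nsmul_eq_mul, sq]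
  have h6 : ((M : ℝ) ^ d) ^ 2 ≤ I.card * coll t := by
    rw [h3, h4]
    exact sq_sum_le_card_mul_sum_sq
  have h7 : ((M : ℝ) ^ d) ^ 2 ≤ I.card * ((1 / 2) ^ n * ((M : ℝ) ^ (2 * d) * Aquant n d M)) :=
    h6.trans (mul_le_mul_of_nonneg_left h1 (by positivity))
  have h8 : ((M : ℝ) ^ d) ^ 2 = (M : ℝ) ^ (2 * d) := by rw [← pow_mul, mul_comm]
  rw [h8] at h7
  have h9 : (0 : ℝ) < (M : ℝ) ^ (2 * d) := by positivity
  have h10 : (1 : ℝ) ≤ I.card * ((1 / 2) ^ n * Aquant n d M) := by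
    have : (M : ℝ) ^ (2 * d) * 1 ≤ (M : ℝ) ^ (2 * d) * (I.card * ((1 / 2) ^ n * Aquant n d M)) := by
      rw [mul_one]
      calc _ ≤ _ := h7
        _ = _ := by ring
    exact le_of_mul_le_mul_left this h9
  have h11 : (0 : ℝ) < 2 ^ n := by positivity
  calc (2 : ℝ) ^ n = 2 ^ n * 1 := by ring
    _ ≤ 2 ^ n * (I.card * ((1 / 2) ^ n * Aquant n d M)) := mul_le_mul_of_nonneg_left h10 h11.le
    _ = (2 ^ n * (1 / 2) ^ n) * (Aquant n d M * I.card) := by ring
    _ = Aquant n d M * I.card := by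
      rw [← mul_pow]
      norm_num

end Pool.Agent.MP_e52733_co
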