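import Pool.Agent.MP_e52733_co.Lower

set_option autoImplicit false

namespace Pool.Agent.MP_e52733_co

theorem choose_quarter (n w : ℕ) (h : 4 * w ≤ n) : (n.choose w : ℝ) ≤ (9 / 5) ^ n := by
  have h1 : (n.choose w : ℝ) * (1 / 3) ^ w ≤ (4 / 3) ^ n := by
    have h2 : ((1 / 3 : ℝ) + 1) ^ n = ∑ m ∈ Finset.range (n + 1), (1 / 3 : ℝ) ^ m * 1 ^ (n - m) * (n.choose m) :=
      add_pow _ _ _
    have h3 : (1 / 3 : ℝ) ^ w * 1 ^ (n - w) * (n.choose w) ≤
        ∑ m ∈ Finset.range (n + 1), (1 / 3 : ℝ) ^ m * 1 ^ (n - m) * (n.choose m) :=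
      Finset.single_le_sum (f := fun m => (1 / 3 : ℝ) ^ m * 1 ^ (n - m) * (n.choose m))
        (fun m _ => by positivity) (Finset.mem_range.mpr (by omega))
    rw [← h2] at h3
    norm_num at h3 ⊢
    linarith
  have h4 : (n.choose w : ℝ) ≤ 3 ^ w * (4 / 3) ^ n := by
    have e : (n.choose w : ℝ) = 3 ^ w * ((n.choose w : ℝ) * (1 / 3) ^ w) := by
      rw [mul_comm (n.choose w : ℝ), ← mul_assoc, ← mul_pow]
      norm_num
    rw [e]
    exact mul_le_mul_of_nonneg_left h1 (by positivity)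
  have h5 : (n.choose w : ℝ) ^ 4 ≤ ((9 / 5 : ℝ) ^ n) ^ 4 := by
    calc (n.choose w : ℝ) ^ 4 ≤ (3 ^ w * (4 / 3) ^ n) ^ 4 :=
          pow_le_pow_left₀ (by positivity) h4 4
      _ = 3 ^ (4 * w) * ((4 / 3) ^ 4) ^ n := by
          rw [mul_pow, ← pow_mul, ← pow_mul, ← pow_mul]
          ring_nf
      _ ≤ 3 ^ n * ((4 / 3) ^ 4) ^ n := by
          apply mul_le_mul_of_nonneg_right _ (by positivity)
          exact pow_le_pow_right₀ (by norm_num) h
      _ = (256 / 27) ^ n := by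
          rw [← mul_pow]; norm_num
      _ ≤ ((9 / 5) ^ 4) ^ n := pow_le_pow_left₀ (by norm_num) (by norm_num) n
      _ = ((9 / 5 : ℝ) ^ n) ^ 4 := by rw [← pow_mul, ← pow_mul, mul_comm]
  exact le_of_pow_le_pow_left₀ (by norm_num) (by positivity) h5

theorem A_le (n d w0 : ℕ) (hn : 12 ≤ n) (hdn : d ≤ n)
    (h1 : (n : ℝ) ^ (w0 + 1) * (3 / 4) ^ d ≤ 1)
    (h2 : (n : ℝ) * ((9 / 5) ^ n * (1 / n + 2 / (w0 + 3)) ^ d) ≤ 1)
    (h3 : (2 : ℝ) ^ n * (9 / n) ^ d ≤ 1) : Aquant n d n ≤ 6 := by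
  have hn' : (12 : ℝ) ≤ n := by exact_mod_cast hn
  have hnpos : (0 : ℝ) < n := by linarith
  unfold Aquant
  rw [Finset.sum_range_succ']
  have hT0 : ((n.choose 0 : ℕ) : ℝ) * (1 / (n : ℝ) + 2 / (((0 : ℕ) : ℝ) + 2)) ^ d ≤ 3 := by
    have e1 : (1 / (n : ℝ) + 2 / (((0 : ℕ) : ℝ) + 2)) = 1 / n + 1 := by norm_num
    rw [e1, Nat.choose_zero_right, Nat.cast_one, one_mul]
    have h4 : (1 / (n : ℝ) + 1) ^ d ≤ Real.exp (1 / n) ^ d :=
      pow_le_pow_left₀ (by positivity) (Real.add_one_le_exp _) d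
    have h5 : Real.exp (1 / n) ^ d ≤ Real.exp 1 := by
      rw [← Real.exp_nat_mul]
      apply Real.exp_le_exp.mpr
      rw [mul_one_div, div_le_one hnpos]
      exact_mod_cast hdn
    have h6 := Real.exp_one_lt_d9
    linarith
  have hT : ∀ w ∈ Finset.range n, ((n.choose (w + 1) : ℕ) : ℝ) *
      (1 / (n : ℝ) + 2 / (((w + 1 : ℕ) : ℝ) + 2)) ^ d ≤
      (n : ℝ) ^ w0 * (3 / 4) ^ d + (9 / 5) ^ n * (1 / n + 2 / (w0 + 3)) ^ d +
        (n.choose (w + 1) : ℝ) * (9 / n) ^ d := by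
    intro w hw
    rw [Finset.mem_range] at hw
    have p1 : 0 ≤ (n : ℝ) ^ w0 * (3 / 4) ^ d := by positivity
    have p2 : 0 ≤ (9 / 5 : ℝ) ^ n * (1 / n + 2 / (w0 + 3)) ^ d := by positivity
    have p3 : 0 ≤ (n.choose (w + 1) : ℝ) * (9 / n) ^ d := by positivity
    by_cases c1 : w + 1 ≤ w0
    · have a1 : ((n.choose (w + 1) : ℕ) : ℝ) ≤ (n : ℝ) ^ w0 := by
        calc ((n.choose (w + 1) : ℕ) : ℝ) ≤ (n : ℝ) ^ (w + 1) := by
              exact_mod_cast Nat.choose_le_pow n (w + 1)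
          _ ≤ (n : ℝ) ^ w0 := pow_le_pow_right₀ (by linarith) c1
      have a2 : (1 / (n : ℝ) + 2 / (((w + 1 : ℕ) : ℝ) + 2)) ≤ 3 / 4 := by
        have b1 : 1 / (n : ℝ) ≤ 1 / 12 := one_div_le_one_div_of_le (by norm_num) hn'
        have b2 : (2 : ℝ) / (((w + 1 : ℕ) : ℝ) + 2) ≤ 2 / 3 := by
          apply div_le_div_of_nonneg_left (by norm_num) (by norm_num)
          push_cast
          have : (0 : ℝ) ≤ w := by positivity
          linarith
        linarith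
      have a3 : (1 / (n : ℝ) + 2 / (((w + 1 : ℕ) : ℝ) + 2)) ^ d ≤ (3 / 4) ^ d :=
        pow_le_pow_left₀ (by positivity) a2 d
      have a4 := mul_le_mul a1 a3 (by positivity) (by positivity)
      linarith
    · by_cases c2 : 4 * (w + 1) ≤ n
      · have a1 := choose_quarter n (w + 1) c2
        have a2 : (1 / (n : ℝ) + 2 / (((w + 1 : ℕ) : ℝ) + 2)) ≤ 1 / n + 2 / (w0 + 3) := by
          have : (2 : ℝ) / (((w + 1 : ℕ) : ℝ) + 2) ≤ 2 / (w0 + 3) := by
            apply div_le_div_of_nonneg_left (by norm_num) (by positivity)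
            push_cast
            have : (w0 : ℝ) ≤ w := by exact_mod_cast (by omega : w0 ≤ w)
            linarith
          linarith
        have a3 : (1 / (n : ℝ) + 2 / (((w + 1 : ℕ) : ℝ) + 2)) ^ d ≤ (1 / n + 2 / (w0 + 3)) ^ d :=
          pow_le_pow_left₀ (by positivity) a2 d
        have a4 := mul_le_mul a1 a3 (by positivity) (by positivity)
        linarith
      · have a2 : (1 / (n : ℝ) + 2 / (((w + 1 : ℕ) : ℝ) + 2)) ≤ 9 / n := by
          have b1 : (n : ℝ) ≤ 4 * (w + 1) := by exact_mod_cast (by omega : n ≤ 4 * (w + 1))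
          have b2 : (2 : ℝ) / (((w + 1 : ℕ) : ℝ) + 2) ≤ 8 / n := by
            rw [div_le_div_iff₀ (by positivity) hnpos]
            push_cast
            linarith
          have b3 : (9 : ℝ) / n = 1 / n + 8 / n := by ring
          rw [b3]
          linarith
        have a3 : (1 / (n : ℝ) + 2 / (((w + 1 : ℕ) : ℝ) + 2)) ^ d ≤ (9 / n) ^ d :=
          pow_le_pow_left₀ (by positivity) a2 d
        have a4 : ((n.choose (w + 1) : ℕ) : ℝ) * (1 / (n : ℝ) + 2 / (((w + 1 : ℕ) : ℝ) + 2)) ^ d ≤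
            (n.choose (w + 1) : ℝ) * (9 / n) ^ d := mul_le_mul_of_nonneg_left a3 (by positivity)
        linarith
  have hsum := Finset.sum_le_sum hT
  rw [Finset.sum_add_distrib, Finset.sum_add_distrib, Finset.sum_const, Finset.sum_const,
    Finset.card_range, nsmul_eq_mul, nsmul_eq_mul, ← Finset.sum_mul] at hsum
  have hch : ∑ w ∈ Finset.range n, (n.choose (w + 1) : ℝ) ≤ 2 ^ n := by
    have e1 : ∑ w ∈ Finset.range (n + 1), (n.choose w : ℝ) = 2 ^ n := by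
      exact_mod_cast Nat.sum_range_choose n
    rw [Finset.sum_range_succ'] at e1
    have : (0 : ℝ) ≤ (n.choose 0 : ℝ) := by positivity
    linarith
  have h5 : (∑ w ∈ Finset.range n, (n.choose (w + 1) : ℝ)) * (9 / n) ^ d ≤ 2 ^ n * (9 / n) ^ d :=
    mul_le_mul_of_nonneg_right hch (by positivity)
  have h6 : (n : ℝ) * ((n : ℝ) ^ w0 * (3 / 4) ^ d) = (n : ℝ) ^ (w0 + 1) * (3 / 4) ^ d := by
    rw [pow_succ]; ring
  linarith

/-- Upper bound for `f n` from numerical conditions. -/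
theorem f_upper_of (n d w0 l : ℕ) (hn : 12 ≤ n) (hdn : d ≤ n) (hl : n ≤ 2 ^ l)
    (h1 : (n : ℝ) ^ (w0 + 1) * (3 / 4) ^ d ≤ 1)
    (h2 : (n : ℝ) * ((9 / 5) ^ n * (1 / n + 2 / (w0 + 3)) ^ d) ≤ 1)
    (h3 : (2 : ℝ) ^ n * (9 / n) ^ d ≤ 1) : f n ≤ d + 4 * l + 6 := by
  have hA := A_le n d w0 hn hdn h1 h2 h3
  obtain ⟨t, ht⟩ := exists_covers n d n (l + 3) (by omega) (by
    have a1 : Real.log 2 < 0.6931471808 := Real.log_two_lt_d9
    have a2 : (n : ℝ) ≤ 2 ^ l := by exact_mod_cast hl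
    have a3 : (0 : ℝ) < n := by positivity
    have a4 : (0 : ℝ) < Real.log 2 := Real.log_pos (by norm_num)
    calc Aquant n d n * (n * Real.log 2) ≤ 6 * (n * Real.log 2) :=
          mul_le_mul_of_nonneg_right hA (by positivity)
      _ < 8 * n := by nlinarith
      _ ≤ 8 * 2 ^ l := by linarith
      _ = 2 ^ (l + 3) := by rw [pow_add]; norm_num; ring)
  have := f_le_of_covers hl ht
  simp only [Fintype.card_sum, Fintype.card_fin] at this
  omega

end Pool.Agent.MP_e52733_co
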