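import Pool.Agent.MP_e52733_co.Defs
import Pool.Agent.MP_e52733_co.Covering

set_option autoImplicit false

namespace Pool.Agent.MP_e52733_co

section
variable {X : Type}

/-- secondary key -/
def minor (idx : X → ℕ) (sgn : X → Bool) (x : X) : ℤ :=
  if sgn x = true then (idx x : ℤ) else -(idx x : ℤ) - 1

theorem minor_inj {idx : X → ℕ} (hidx : Function.Injective idx) (sgn : X → Bool) :
    Function.Injective (minor idx sgn) := by
  intro x y h
  unfold minor at h
  apply hidx
  split_ifs at h <;> omega

@[reducible] noncomputable def mkOrder {idx : X → ℕ} (hidx : Function.Injective idx) (maj : X → ℕ)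
    (sgn : X → Bool) : LinearOrder X :=
  LinearOrder.lift' (fun x => (toLex (maj x, minor idx sgn x) : ℕ ×ₗ ℤ)) (by
    intro x y h
    have := congrArg (fun z : ℕ ×ₗ ℤ => (ofLex z).2) h
    exact minor_inj hidx sgn this)

theorem mkOrder_lt {idx : X → ℕ} (hidx : Function.Injective idx) (maj : X → ℕ)
    (sgn : X → Bool) (x y : X) : (mkOrder hidx maj sgn).lt x y ↔
      (maj x < maj y ∨ (maj x = maj y ∧ minor idx sgn x < minor idx sgn y)) := by
  change (toLex (maj x, minor idx sgn x) : ℕ ×ₗ ℤ) < toLex (maj y, minor idx sgn y) ↔ _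
  rw [Prod.Lex.lt_iff]
  rfl

theorem realizer_of_index [PartialOrder X] {ι : Type} [Fintype ι]
    (L : ι → LinearOrder X)
    (h : ∀ x y x' y' : X, x ≠ y → x' ≠ y' → (∀ i, (L i).lt x y ↔ (L i).lt x' y') → x < y → x' < y') :
    HasBooleanRealizer X (Fintype.card ι) := by
  classical
  refine ⟨fun i => L ((Fintype.equivFin ι).symm i),
    fun v => decide (∃ x y : X, x ≠ y ∧ x < y ∧
      query (fun i => L ((Fintype.equivFin ι).symm i)) x y = v), ?_⟩
  intro x' y' hne'
  rw [decide_eq_true_iff]
  constructor
  · intro hlt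
    exact ⟨x', y', hne', hlt, rfl⟩
  · rintro ⟨x, y, hne, hlt, hq⟩
    apply h x y x' y' hne hne' _ hlt
    intro i
    obtain ⟨j, rfl⟩ := (Fintype.equivFin ι).symm.surjective i
    have h1 := congrFun hq j
    simp only [query, decide_eq_decide] at h1
    exact h1

end

/-- The key upper bound: a covering system of thresholds gives a Boolean realizer. -/
theorem realizer_of_covers {X : Type} [Finite X] [PartialOrder X] {n l : ℕ} (hn : n ≤ 2 ^ l)
    (hX : AntichainPlus X n) {ι : Type} [Fintype ι] {t : Fin n → ι → ℕ} (ht : Covers t) :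
    HasBooleanRealizer X (3 + 3 * l + Fintype.card ι) := by
  classical
  have hft : Fintype X := Fintype.ofFinite X
  obtain ⟨B, hB, hanti⟩ := hX
  have hinc : ∀ x y : X, x ∉ B → y ∉ B → ¬ x < y := by
    intro x y hx hy hlt
    exact hanti hx hy hlt.ne hlt.le
  -- labels for `B`
  obtain ⟨e⟩ : Nonempty (B ≃ Fin n) := ⟨Fintype.equivFinOfCardEq (by simp [hB])⟩
  -- index function
  let idx : X → ℕ := fun x => (Fintype.equivFin X x : ℕ)
  have hidx : Function.Injective idx := by
    intro x y h
    exact (Fintype.equivFin X).injective (Fin.ext h)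
  -- the label as a natural number
  let lab : X → ℕ := fun x => if hx : x ∈ B then (e ⟨x, hx⟩ : ℕ) else 0
  have hlab : ∀ x (hx : x ∈ B), lab x = (e ⟨x, hx⟩ : ℕ) := fun x hx => by simp [lab, hx]
  have hlab_lt : ∀ x, x ∈ B → lab x < 2 ^ l := by
    intro x hx
    rw [hlab x hx]
    exact lt_of_lt_of_le (e ⟨x, hx⟩).2 hn
  have hlab_inj : ∀ x y, x ∈ B → y ∈ B → (∀ j : Fin l, (lab x).testBit j = (lab y).testBit j) → x = y := by
    intro x y hx hy hbits
    have h1 : lab x = lab y := by
      apply Nat.eq_of_testBit_eq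
      intro i
      by_cases hi : i < l
      · exact hbits ⟨i, hi⟩
      · have e1 : ∀ z, z ∈ B → (lab z).testBit i = false := by
          intro z hz
          apply Nat.testBit_lt_two_pow
          exact lt_of_lt_of_le (hlab_lt z hz) (Nat.pow_le_pow_right (by norm_num) (by omega))
        rw [e1 x hx, e1 y hy]
    rw [hlab x hx, hlab y hy] at h1
    have h2 := e.injective (Fin.ext h1)
    exact congrArg Subtype.val h2
  -- comparability vectors and positions
  let S : X → Fin n → ZMod 2 := fun a b =>
    if ((e.symm b : X) < a ∨ a < (e.symm b : X)) then 1 else 0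
  choose p hp using ht
  let pos : X → ι → ℕ := fun a => p (S a)
  let thr : X → ι → ℕ := fun x => if hx : x ∈ B then t (e ⟨x, hx⟩) else fun _ => 0
  have hthr : ∀ x (hx : x ∈ B) a, ∑ i, bit (thr x i) (pos a i) = if (x < a ∨ a < x) then 1 else 0 := by
    intro x hx a
    have h1 := hp (S a) (e ⟨x, hx⟩)
    have h2 : thr x = t (e ⟨x, hx⟩) := by simp [thr, hx]
    rw [h2]
    change ∑ i, bit (t (e ⟨x, hx⟩) i) (p (S a) i) = _
    rw [h1]
    simp only [S, Equiv.symm_apply_apply]
  -- the linear orders
  let L : (Fin 3 ⊕ (Fin l × Fin 3) ⊕ ι) → LinearOrder X := fun s =>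
    match s with
    | Sum.inl 0 => mkOrder hidx (fun x => if x ∈ B then 1 else 0) (fun _ => true)
    | Sum.inl 1 => mkOrder hidx (fun x => if x ∈ B then 0 else 1) (fun _ => true)
    | Sum.inl 2 => mkOrder hidx (fun x => if x ∈ B then 1 else 0) (fun x => decide (x ∉ B))
    | Sum.inr (Sum.inl (j, 0)) => mkOrder hidx
        (fun x => if x ∈ B then (if (lab x).testBit j = true then 2 else 0) else 1) (fun _ => true)
    | Sum.inr (Sum.inl (j, 1)) => mkOrder hidx
        (fun x => if x ∈ B then (if (lab x).testBit j = true then 0 else 2) else 1) (fun _ => true)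
    | Sum.inr (Sum.inl (j, 2)) => mkOrder hidx
        (fun x => if x ∈ B then (if (lab x).testBit j = true then 2 else 0) else 1)
        (fun x => decide (¬ (x ∈ B ∧ (lab x).testBit j = true)))
    | Sum.inr (Sum.inr i) => mkOrder hidx
        (fun x => if x ∈ B then 2 * thr x i else 2 * pos x i + 1) (fun _ => true)
  have hcard : Fintype.card (Fin 3 ⊕ (Fin l × Fin 3) ⊕ ι) = 3 + 3 * l + Fintype.card ι := by
    simp only [Fintype.card_sum, Fintype.card_prod, Fintype.card_fin]
    ring
  rw [← hcard]
  apply realizer_of_index L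
  intro x y x' y' hne hne' hL hlt
  have hi1 : (idx x : ℤ) ≠ idx y := fun h => hne (hidx (by exact_mod_cast h))
  have hi2 : (idx x' : ℤ) ≠ idx y' := fun h => hne' (hidx (by exact_mod_cast h))
  have hM1 := hL (Sum.inl 0)
  have hM2 := hL (Sum.inl 1)
  have hM3 := hL (Sum.inl 2)
  simp only [L, mkOrder_lt] at hM1 hM2 hM3
  have hN1 : ∀ j : Fin l, _ := fun j => hL (Sum.inr (Sum.inl (j, 0)))
  have hN2 : ∀ j : Fin l, _ := fun j => hL (Sum.inr (Sum.inl (j, 1)))
  have hN3 : ∀ j : Fin l, _ := fun j => hL (Sum.inr (Sum.inl (j, 2)))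
  simp only [L, mkOrder_lt] at hN1 hN2 hN3
  have hT : ∀ i : ι, _ := fun i => hL (Sum.inr (Sum.inr i))
  simp only [L, mkOrder_lt] at hT
  -- types agree
  have hxB : x ∈ B ↔ x' ∈ B := by
    by_cases h1 : x ∈ B <;> by_cases h2 : y ∈ B <;> by_cases h3 : x' ∈ B <;> by_cases h4 : y' ∈ B <;>
      simp [h1, h2, h3, h4, minor] at hM1 hM2 hM3 ⊢ <;> omega
  have hyB : y ∈ B ↔ y' ∈ B := by
    by_cases h1 : x ∈ B <;> by_cases h2 : y ∈ B <;> by_cases h3 : x' ∈ B <;> by_cases h4 : y' ∈ B <;>
      simp [h1, h2, h3, h4, minor] at hM1 hM2 hM3 ⊢ <;> omega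
  by_cases h1 : x ∈ B
  · have h3 := hxB.mp h1
    by_cases h2 : y ∈ B
    · -- both in `B`
      have h4 := hyB.mp h2
      have hbit : ∀ j : Fin l, (lab x).testBit j = (lab x').testBit j ∧
          (lab y).testBit j = (lab y').testBit j := by
        intro j
        have a1 := hN1 j
        have a2 := hN2 j
        have a3 := hN3 j
        cases b1 : (lab x).testBit j <;> cases b2 : (lab y).testBit j <;>
          cases b3 : (lab x').testBit j <;> cases b4 : (lab y').testBit j <;>
          simp [h1, h2, h3, h4, minor, b1, b2, b3, b4] at a1 a2 a3 ⊢ <;> omega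
      have e1 := hlab_inj x x' h1 h3 (fun j => (hbit j).1)
      have e2 := hlab_inj y y' h2 h4 (fun j => (hbit j).2)
      rw [← e1, ← e2]
      exact hlt
    · -- `x` in `B`, `y` in the antichain
      have h4 : y' ∉ B := fun h => h2 (hyB.mpr h)
      have hbit : ∀ j : Fin l, (lab x).testBit j = (lab x').testBit j := by
        intro j
        have a1 := hN1 j
        cases b1 : (lab x).testBit j <;> cases b3 : (lab x').testBit j <;>
          simp [h1, h2, h3, h4, b1, b3] at a1 ⊢
      have e1 := hlab_inj x x' h1 h3 hbit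
      subst e1
      have hbits : ∀ i, bit (thr x i) (pos y i) = bit (thr x i) (pos y' i) := by
        intro i
        have a1 := hT i
        simp only [h1, h2, h4, if_true, if_false] at a1
        unfold bit
        by_cases c1 : thr x i ≤ pos y i <;> by_cases c2 : thr x i ≤ pos y' i <;>
          simp only [c1, c2, if_true, if_false] <;> omega
      have hs1 := hthr x h1 y
      have hs2 := hthr x h1 y'
      rw [Finset.sum_congr rfl (fun i _ => hbits i), hs2] at hs1
      rw [if_pos (Or.inl hlt)] at hs1
      by_cases hcmp : x < y' ∨ y' < x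
      · rcases hcmp with h | h
        · exact h
        · exact absurd (h.trans hlt) (hinc y' y h4 h2)
      · rw [if_neg hcmp] at hs1
        exact absurd hs1 (by decide)
  · by_cases h2 : y ∈ B
    · -- `x` in the antichain, `y` in `B`
      have h3 : x' ∉ B := fun h => h1 (hxB.mpr h)
      have h4 := hyB.mp h2
      have hbit : ∀ j : Fin l, (lab y).testBit j = (lab y').testBit j := by
        intro j
        have a1 := hN1 j
        cases b1 : (lab y).testBit j <;> cases b3 : (lab y').testBit j <;>
          simp [h1, h2, h3, h4, b1, b3] at a1 ⊢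
      have e1 := hlab_inj y y' h2 h4 hbit
      subst e1
      have hbits : ∀ i, bit (thr y i) (pos x i) = bit (thr y i) (pos x' i) := by
        intro i
        have a1 := hT i
        simp only [h1, h2, h3, if_true, if_false] at a1
        unfold bit
        by_cases c1 : thr y i ≤ pos x i <;> by_cases c2 : thr y i ≤ pos x' i <;>
          simp only [c1, c2, if_true, if_false] <;> omega
      have hs1 := hthr y h2 x
      have hs2 := hthr y h2 x'
      rw [Finset.sum_congr rfl (fun i _ => hbits i), hs2] at hs1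
      rw [if_pos (Or.inr hlt)] at hs1
      by_cases hcmp : y < x' ∨ x' < y
      · rcases hcmp with h | h
        · exact absurd (hlt.trans h) (hinc x x' h1 h3)
        · exact h
      · rw [if_neg hcmp] at hs1
        exact absurd hs1 (by decide)
    · exact absurd hlt (hinc x y h1 h2)

theorem bdim_le_of_covers {X : Type} [Finite X] [PartialOrder X] {n l : ℕ} (hn : n ≤ 2 ^ l)
    (hX : AntichainPlus X n) {ι : Type} [Fintype ι] {t : Fin n → ι → ℕ} (ht : Covers t) :
    bdim X ≤ 3 + 3 * l + Fintype.card ι :=
  Nat.sInf_le ⟨by omega, realizer_of_covers hn hX ht⟩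

end Pool.Agent.MP_e52733_co
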